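import Pool.Agent.H95.Hahn

set_option autoImplicit false

open Pool.Agent.H95.Hahn PowerSeries

theorem Pool.Agent.Results.MP_93f727_an.Fails.result (a b c q : ℝ) (hq : |q| < 1) (h : a * b * c ≠ 0) :
    (∃ n, 1 ≤ n ∧ ∃ x, G n x a b c q ≠ AW n x a b c q *
      (poch (C a * X) (C q) n * poch (C b * X) (C q) n * poch (C c * X) (C q) n)⁻¹ * G 0 x a b c q) ∧
    ∀ l : ℝ⟦X⟧, ∃ x, G 1 x a b c q ≠ AW 1 x a b c q * l * G 0 x a b c q :=
  ⟨⟨1, le_rfl, main a b c q hq h _⟩, main a b c q hq h⟩
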